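import Pool.Agent.R226.TC

/-!
# A symmetric tridiagonal matrix whose rank-one modification has spectral radius above one
-/

set_option autoImplicit false
set_option linter.unusedSimpArgs false
set_option linter.unusedVariables false

open Filter Topology Matrix

namespace Pool.Agent.Results.MP_8f6a5a_an.RadiusExceedsOne

noncomputable section

/-- Spectral radius of a real square matrix: the largest modulus of a complex eigenvalue. -/
def rho {n : ℕ} (M : Matrix (Fin n) (Fin n) ℝ) : ENNReal :=
  spectralRadius ℂ (M.map (algebraMap ℝ ℂ))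

/-- Indices `r`, `s` are neighbours if they differ by one. -/
def Adj {n : ℕ} (r s : Fin n) : Prop := (r : ℕ) + 1 = s ∨ (s : ℕ) + 1 = r

instance {n : ℕ} (r s : Fin n) : Decidable (Adj r s) := by unfold Adj; infer_instance

/-- Conditions 1-3 on `P`: it is real symmetric and tridiagonal with strictly positive entries on
the three middle diagonals, it has spectral radius `1`, and for every `s` the sum of the entries
`p_{r s}` with `r` adjacent to `s` is at most `1`. -/
def Admissible {n : ℕ} (P : Matrix (Fin n) (Fin n) ℝ) : Prop :=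
  P.IsSymm ∧
  (∀ r s, (r = s ∨ Adj r s) → 0 < P r s) ∧
  (∀ r s, ¬ (r = s ∨ Adj r s) → P r s = 0) ∧
  rho P = 1 ∧
  ∀ s, ∑ r ∈ Finset.univ.filter (fun r => Adj r s), P r s ≤ 1

/-- `F = (I - c eᵀ) P`. -/
def F {n : ℕ} (P : Matrix (Fin n) (Fin n) ℝ) (c : Fin n → ℝ) : Matrix (Fin n) (Fin n) ℝ :=
  (1 - Matrix.of fun i _ => c i) * P

open Pool.Agent.R226.TD

/-- **Q1 is false.** There is an admissible matrix `P` of order `10003` and a probability vector
`c` such that `(I - c eᵀ) P` has spectral radius larger than `1`. -/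
theorem result : ∃ (P : Matrix (Fin 10003) (Fin 10003) ℝ) (c : Fin 10003 → ℝ),
    Admissible P ∧ (∀ i, 0 ≤ c i) ∧ ∑ i, c i = 1 ∧ 1 < rho (F P c) := by
  obtain ⟨τ, hτ, t, hfin, c1, c2, c3⟩ := key
  set p : ℕ → ℝ := fun j => 1 / rr τ j with hp
  have hrr : ∀ j, 0 < rr τ j := by
    intro j
    unfold rr
    split_ifs
    · norm_num
    · exact hτ
  have hppos : ∀ j, 0 < p j := fun j => by
    simp only [hp]
    exact one_div_pos.2 (hrr j)
  set pmax : ℝ := 10000 + 1 / τ with hpmax
  have hτ' : 0 < 1 / τ := one_div_pos.2 hτ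
  have hpM : ∀ j, p j ≤ pmax := by
    intro j
    simp only [hp, hpmax]
    unfold rr
    split_ifs
    · norm_num
      exact hτ.le
    · linarith
  have hpm0 : 0 < pmax := by rw [hpmax]; linarith
  have hh1 : ∀ j, 1 ≤ hh j := by
    intro j
    unfold hh
    split_ifs <;> norm_num
  have hh0 : ∀ j, 0 < hh j := fun j => lt_of_lt_of_le one_pos (hh1 j)
  set ε : ℝ := 1 / (4 * pmax) with hε
  have hε0 : 0 < ε := by positivity
  have hεp : ε * pmax = 1 / 4 := by
    rw [hε]; field_simp
  set n : ℕ := 10003 with hn
  -- bounds on entries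
  have hbb : ∀ j, ε * bb n hh p j ≤ 1 / 4 := by
    intro j
    have : bb n hh p j ≤ pmax := by
      unfold bb
      split_ifs
      · refine (div_le_self (hppos j).le ?_).trans (hpM j)
        exact one_le_mul_of_one_le_of_one_le (hh1 _) (hh1 _)
      · exact hpm0.le
    calc ε * bb n hh p j ≤ ε * pmax := mul_le_mul_of_nonneg_left this hε0.le
      _ = 1 / 4 := hεp
  have hbbpos : ∀ j, j + 1 < n → 0 < ε * bb n hh p j := by
    intro j hj
    apply mul_pos hε0
    unfold bb
    rw [if_pos hj]
    exact div_pos (hppos j) (mul_pos (hh0 _) (hh0 _))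
  have hdd : ∀ j, ε * dd n hh p j ≤ 1 / 2 := by
    intro j
    have e1 : pp n p j ≤ pmax := by
      unfold pp
      split_ifs
      · exact hpM j
      · exact hpm0.le
    have e2 : pm p j ≤ pmax := by
      unfold pm
      split_ifs
      · exact hpm0.le
      · exact hpM _
    have e3 : 0 ≤ pp n p j + pm p j := by
      apply add_nonneg
      · unfold pp
        split_ifs
        · exact (hppos j).le
        · exact le_rfl
      · unfold pm
        split_ifs
        · exact le_rfl
        · exact (hppos _).le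
    have e4 : dd n hh p j ≤ 2 * pmax := by
      unfold dd
      refine (div_le_self e3 ?_).trans (by linarith)
      exact one_le_pow₀ (hh1 j)
    calc ε * dd n hh p j ≤ ε * (2 * pmax) := mul_le_mul_of_nonneg_left e4 hε0.le
      _ = 1 / 2 := by linarith
  -- the matrix
  set P : Matrix (Fin n) (Fin n) ℝ := PM n hh p ε with hP
  have entry_diag : ∀ r : Fin n, P r r = 1 - ε * dd n hh p r := by
    intro r
    simp only [hP, PM, Matrix.of_apply, PN]
    have a1 : ¬ ((r : ℕ) = (r : ℕ) + 1) := by omega
    simp only [a1, if_true, if_false]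
    ring
  have entry_up : ∀ r s : Fin n, (r : ℕ) + 1 = s → P r s = ε * bb n hh p r := by
    intro r s hrs
    simp only [hP, PM, Matrix.of_apply, PN]
    rw [if_neg (by omega), if_pos (by omega), if_neg (by omega)]
    ring
  have entry_down : ∀ r s : Fin n, (s : ℕ) + 1 = r → P r s = ε * bb n hh p s := by
    intro r s hrs
    simp only [hP, PM, Matrix.of_apply, PN]
    rw [if_neg (by omega), if_neg (by omega), if_pos (by omega)]
    ring
  have entry_zero : ∀ r s : Fin n, ¬ (r = s ∨ Adj r s) → P r s = 0 := by
    intro r s hrs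
    rw [not_or] at hrs
    obtain ⟨h1, h2⟩ := hrs
    unfold Adj at h2
    rw [not_or] at h2
    have h3 : (r : ℕ) ≠ s := fun h => h1 (Fin.ext h)
    simp only [hP, PM, Matrix.of_apply, PN]
    rw [if_neg (fun h => h3 h.symm), if_neg (fun h => h2.1 h.symm), if_neg (fun h => h2.2 h.symm)]
    ring
  have entry_pos : ∀ r s : Fin n, (r = s ∨ Adj r s) → 0 < P r s := by
    rintro r s (rfl | h1 | h1)
    · rw [entry_diag]
      have := hdd r
      linarith
    · rw [entry_up r s h1]
      exact hbbpos r (by have := s.2; omega)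
    · rw [entry_down r s h1]
      exact hbbpos s (by have := r.2; omega)
  have entry_nonneg : ∀ r s : Fin n, 0 ≤ P r s := by
    intro r s
    by_cases h : r = s ∨ Adj r s
    · exact (entry_pos r s h).le
    · rw [entry_zero r s h]
  have entry_adj : ∀ r s : Fin n, Adj r s → P r s ≤ 1 / 4 := by
    rintro r s (h1 | h1)
    · rw [entry_up r s h1]; exact hbb r
    · rw [entry_down r s h1]; exact hbb s
  -- fixed vector
  have hfix : P *ᵥ (fun s : Fin n => hh s) = fun s : Fin n => hh s := by
    funext r
    have h1 := apply_weighted (n := n) (h := hh) (p := p) (ε := ε) hh0 (fun _ => 1) r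
    simp only [mul_one, sub_self, mul_zero, add_zero, sub_zero] at h1
    have h2 : ((P *ᵥ (fun s : Fin n => hh s)) r : ℂ) =
        ((P.map (algebraMap ℝ ℂ)) *ᵥ (fun s : Fin n => (hh s : ℂ))) r := by
      simp only [Matrix.mulVec, dotProduct, Matrix.map_apply]
      push_cast
      rfl
    have h3 : ((P *ᵥ (fun s : Fin n => hh s)) r : ℂ) = (hh r : ℂ) := by
      rw [h2]
      exact h1
    exact_mod_cast h3
  have hrad : rho P = 1 := radius_eq_one (by norm_num [hn]) P entry_nonneg (fun s : Fin n => hh s)
    (fun r => hh0 r) hfix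
  have hsum : ∀ s : Fin n, ∑ r ∈ Finset.univ.filter (fun r => Adj r s), P r s ≤ 1 := by
    intro s
    have hcard : (Finset.univ.filter (fun r : Fin n => Adj r s)).card ≤ 2 := by
      have h1 : (Finset.univ.filter (fun r : Fin n => Adj r s)).card ≤
          ({(s : ℕ) - 1, (s : ℕ) + 1} : Finset ℕ).card := by
        apply Finset.card_le_card_of_injOn (fun r : Fin n => (r : ℕ))
        · intro r hr
          rw [Finset.mem_coe, Finset.mem_filter] at hr
          rw [Finset.mem_coe, Finset.mem_insert, Finset.mem_singleton]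
          rcases hr.2 with h | h
          · left; simp only; omega
          · right; simp only; omega
        · intro a _ b _ hab
          exact Fin.ext hab
      exact h1.trans Finset.card_le_two
    calc ∑ r ∈ Finset.univ.filter (fun r => Adj r s), P r s
        ≤ ∑ r ∈ Finset.univ.filter (fun r : Fin n => Adj r s), (1 / 4 : ℝ) := by
          apply Finset.sum_le_sum
          intro r hr
          exact entry_adj r s (Finset.mem_filter.1 hr).2
      _ = ((Finset.univ.filter (fun r : Fin n => Adj r s)).card : ℝ) * (1 / 4) := by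
          rw [Finset.sum_const, nsmul_eq_mul]
      _ ≤ 2 * (1 / 4) := by
          apply mul_le_mul_of_nonneg_right _ (by norm_num)
          exact_mod_cast hcard
      _ ≤ 1 := by norm_num
  -- the complex vector
  set G : ℕ → ℂ := g τ t with hG
  have hflow : ∀ j, (p j : ℂ) * (G (j + 1) - G j) = Ph τ t j := by
    intro j
    rw [hG, g_succ]
    have : ((rr τ j : ℝ) : ℂ) ≠ 0 := by exact_mod_cast (hrr j).ne'
    simp only [hp]
    push_cast
    field_simp
    ring
  have heq : ∀ r, r < n → (pp n p r : ℂ) * (G r - G (r + 1)) + pm p r * (G r - G (r - 1)) =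
      hh r - Complex.I * (hh r : ℂ) ^ 2 * G r := by
    intro r hr
    have hA : (pp n p r : ℂ) * (G r - G (r + 1)) = - Ph τ t r := by
      by_cases e1 : r + 1 < n
      · have : pp n p r = p r := by unfold pp; rw [if_pos e1]
        rw [this, ← hflow r]
        ring
      · have e2 : r = 10002 := by omega
        have : pp n p r = 0 := by unfold pp; rw [if_neg e1]
        rw [this, e2, hfin]
        simp
    rw [hA]
    cases r with
    | zero =>
      have : pm p 0 = 0 := by unfold pm; rw [if_pos rfl]
      rw [this, Ph_zero, hG, g_zero]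
      push_cast
      ring
    | succ k =>
      have : pm p (k + 1) = p k := by
        unfold pm
        rw [if_neg (by omega), Nat.add_sub_cancel]
      rw [this, Nat.add_sub_cancel, hflow k, Ph_succ]
      ring
  set z : Fin n → ℂ := fun s : Fin n => hh s * G s with hz
  have hPz : P.map (algebraMap ℝ ℂ) *ᵥ z = (1 + ε * Complex.I) • z - fun _ => (ε : ℂ) := by
    funext r
    have h1 := apply_weighted (n := n) (h := hh) (p := p) (ε := ε) hh0 G r
    rw [heq r r.2] at h1
    have h2 : (P.map (algebraMap ℝ ℂ) *ᵥ z) r = (hh r : ℂ) * G r - ε / hh r *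
        (hh r - Complex.I * (hh r : ℂ) ^ 2 * G r) := h1
    rw [h2, Pi.sub_apply, Pi.smul_apply, smul_eq_mul]
    simp only [hz]
    have h3 : ((hh r : ℝ) : ℂ) ≠ 0 := by exact_mod_cast (hh0 r).ne'
    field_simp
    ring
  -- the probability vector
  have l3 : (3 : ℕ) < n := by norm_num [hn]
  set i0 : Fin n := ⟨0, by omega⟩ with hi0
  set i1 : Fin n := ⟨1, by omega⟩ with hi1
  set i3 : Fin n := ⟨3, by omega⟩ with hi3
  set w0 : ℝ := chi (G 1) (G 3) / hh 0 with hw0
  set w1 : ℝ := chi (G 3) (G 0) / hh 1 with hw1
  set w3 : ℝ := chi (G 0) (G 1) / hh 3 with hw3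
  have w0p : 0 < w0 := div_pos c2 (hh0 0)
  have w1p : 0 < w1 := div_pos c3 (hh0 1)
  have w3p : 0 < w3 := div_pos c1 (hh0 3)
  set W : ℝ := w0 + w1 + w3 with hW
  have Wp : 0 < W := by positivity
  set c : Fin n → ℝ := fun i => ((if i = i0 then w0 else 0) + (if i = i1 then w1 else 0) +
    (if i = i3 then w3 else 0)) / W with hc
  have hsumc : ∀ f : Fin n → ℂ, ∑ i, (c i : ℂ) * f i = (w0 * f i0 + w1 * f i1 + w3 * f i3) / W := by
    intro f
    have : ∀ i, (c i : ℂ) * f i = ((if i = i0 then (w0 : ℂ) * f i0 else 0) +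
        (if i = i1 then (w1 : ℂ) * f i1 else 0) + (if i = i3 then (w3 : ℂ) * f i3 else 0)) / W := by
      intro i
      simp only [hc]
      push_cast
      by_cases e0 : i = i0
      · by_cases e1 : i = i1
        · exact absurd (e0.symm.trans e1) (by rw [hi0, hi1]; simp)
        · by_cases e3 : i = i3
          · exact absurd (e0.symm.trans e3) (by rw [hi0, hi3]; simp)
          · simp only [e1, e3, if_false, e0, if_true]
            rw [if_neg (fun h => e1 (e0.trans h)), if_neg (fun h => e3 (e0.trans h)),
              if_neg (fun h => e1 (e0.trans h)), if_neg (fun h => e3 (e0.trans h))]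
            push_cast; ring
      · by_cases e1 : i = i1
        · by_cases e3 : i = i3
          · exact absurd (e1.symm.trans e3) (by rw [hi1, hi3]; simp)
          · rw [if_neg e0, if_pos e1, if_neg e3, if_neg e0, if_pos e1, if_neg e3, e1]
            push_cast; ring
        · by_cases e3 : i = i3
          · rw [if_neg e0, if_neg e1, if_pos e3, if_neg e0, if_neg e1, if_pos e3, e3]
            push_cast; ring
          · rw [if_neg e0, if_neg e1, if_neg e3, if_neg e0, if_neg e1, if_neg e3]
            push_cast; ring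
    rw [Finset.sum_congr rfl (fun i _ => this i), ← Finset.sum_div, Finset.sum_add_distrib,
      Finset.sum_add_distrib]
    simp only [Finset.sum_ite_eq', Finset.mem_univ, if_true]
  have hc0 : ∀ i, 0 ≤ c i := by
    intro i
    simp only [hc]
    apply div_nonneg _ Wp.le
    have a0 : 0 ≤ (if i = i0 then w0 else 0) := by split_ifs <;> [exact w0p.le; exact le_rfl]
    have a1 : 0 ≤ (if i = i1 then w1 else 0) := by split_ifs <;> [exact w1p.le; exact le_rfl]
    have a3 : 0 ≤ (if i = i3 then w3 else 0) := by split_ifs <;> [exact w3p.le; exact le_rfl]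
    linarith
  have hWne : (W : ℂ) ≠ 0 := by exact_mod_cast Wp.ne'
  have hc1 : ∑ i, c i = 1 := by
    have h1 := hsumc (fun _ => 1)
    simp only [mul_one] at h1
    have h2 : ((∑ i, c i : ℝ) : ℂ) = 1 := by
      push_cast
      rw [h1]
      rw [div_eq_one_iff_eq hWne, hW]
      push_cast
      ring
    exact_mod_cast h2
  have hcz : ∑ i, (c i : ℂ) * z i = 0 := by
    rw [hsumc z]
    have h1 : (w0 : ℂ) * z i0 + w1 * z i1 + w3 * z i3 = 0 := by
      simp only [hz, hw0, hw1, hw3, hi0, hi1, hi3]
      have a0 : ((hh 0 : ℝ) : ℂ) ≠ 0 := by exact_mod_cast (hh0 0).ne'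
      have a1 : ((hh 1 : ℝ) : ℂ) ≠ 0 := by exact_mod_cast (hh0 1).ne'
      have a3 : ((hh 3 : ℝ) : ℂ) ≠ 0 := by exact_mod_cast (hh0 3).ne'
      push_cast
      have b0 : (chi (G 1) (G 3) : ℂ) / hh 0 * (hh 0 * G 0) = chi (G 1) (G 3) * G 0 := by
        field_simp
      have b1 : (chi (G 3) (G 0) : ℂ) / hh 1 * (hh 1 * G 1) = chi (G 3) (G 0) * G 1 := by
        field_simp
      have b3 : (chi (G 0) (G 1) : ℂ) / hh 3 * (hh 3 * G 3) = chi (G 0) (G 1) * G 3 := by
        field_simp
      rw [b0, b1, b3]
      unfold chi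
      apply Complex.ext
      · simp only [Complex.add_re, Complex.re_ofReal_mul, Complex.zero_re]
        ring
      · simp only [Complex.add_im, Complex.im_ofReal_mul, Complex.zero_im]
        ring
    rw [h1, zero_div]
  refine ⟨P, c, ⟨PM_symm, entry_pos, entry_zero, hrad, hsum⟩, hc0, hc1, ?_⟩
  exact radius_gt_one P PM_symm c hc1 ε hε0 z hPz hcz

end

end Pool.Agent.Results.MP_8f6a5a_an.RadiusExceedsOne
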